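import Pool.Agent.L7h38.UC.Stm

/-!
# Project UC (helper38, MP_1e2081_pr), part LYA: the exponent of the products
-/

set_option autoImplicit false

namespace Pool.Agent.L7h15.UC

open Pool.Agent.L7h38.UC Finset Filter Topology

/-- lists of length `N` all of whose letters have positive weight -/
def Gd {d : ℕ} (μ : Equiv.Perm (Fin d) → ℝ) (N : ℕ) (w : List (Equiv.Perm (Fin d))) : Prop :=
  w.length = N ∧ ∀ σ ∈ w, 0 < μ σ

theorem EW_mono {d : ℕ} {μ : Equiv.Perm (Fin d) → ℝ} (hμ : Pr μ) : ∀ (N : ℕ)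
    (f g : List (Equiv.Perm (Fin d)) → ℝ), (∀ w, Gd μ N w → f w ≤ g w) → EW μ N f ≤ EW μ N g
  | 0, f, g, h => h [] ⟨rfl, by simp⟩
  | N + 1, f, g, h => by
    simp only [EW]
    refine Finset.sum_le_sum fun σ _ => ?_
    rcases (hμ.1 σ).eq_or_lt with h0 | h0
    · rw [← h0]; simp
    · refine mul_le_mul_of_nonneg_left (EW_mono hμ N _ _ fun w hw => h _ ⟨?_, ?_⟩) h0.le
      · simp [hw.1]
      · intro τ hτ
        rcases List.mem_cons.1 hτ with rfl | hτ
        · exact h0
        · exact hw.2 τ hτ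

theorem EW_lin {d : ℕ} (μ : Equiv.Perm (Fin d) → ℝ) (x y : ℝ) : ∀ (N : ℕ)
    (f g : List (Equiv.Perm (Fin d)) → ℝ),
    EW μ N (fun w => x * f w + y * g w) = x * EW μ N f + y * EW μ N g
  | 0, f, g => rfl
  | N + 1, f, g => by
    simp only [EW]
    rw [Finset.mul_sum, Finset.mul_sum, ← Finset.sum_add_distrib]
    refine Finset.sum_congr rfl fun σ _ => ?_
    rw [EW_lin μ x y N]
    ring

theorem EW_const {d : ℕ} {μ : Equiv.Perm (Fin d) → ℝ} (hμ : Pr μ) (x : ℝ) : ∀ (N : ℕ),
    EW μ N (fun _ => x) = x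
  | 0 => rfl
  | N + 1 => by
    simp only [EW]
    simp_rw [EW_const hμ x N]
    rw [← Finset.sum_mul, hμ.2, one_mul]

theorem EW_append {d : ℕ} (μ : Equiv.Perm (Fin d) → ℝ) (n : ℕ) : ∀ (m : ℕ)
    (f : List (Equiv.Perm (Fin d)) → ℝ),
    EW μ (m + n) f = EW μ m (fun v => EW μ n (fun w => f (v ++ w)))
  | 0, f => by simp [EW]
  | m + 1, f => by
    rw [Nat.add_right_comm]
    simp only [EW]
    refine Finset.sum_congr rfl fun σ _ => ?_
    rw [EW_append μ n m]
    rfl

theorem EW_nonneg {d : ℕ} {μ : Equiv.Perm (Fin d) → ℝ} (hμ : Pr μ) (N : ℕ)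
    (f : List (Equiv.Perm (Fin d)) → ℝ) (h : ∀ w, 0 ≤ f w) : 0 ≤ EW μ N f := by
  calc (0 : ℝ) = EW μ N (fun _ => (0 : ℝ)) := (EW_const hμ 0 N).symm
    _ ≤ EW μ N f := EW_mono hμ N _ _ fun w _ => h w

theorem nf2_Pi0 (d : ℕ) (hd : 2 ≤ d) : nf2 (Pi0 d) = d - 1 := by
  have hd0 : (d : ℝ) ≠ 0 := by positivity
  have h1 : ∀ i : Fin d, ∑ j : Fin d, Pi0 d i j ^ 2 = 1 - 1 / d := by
    intro i
    have : ∀ j : Fin d, Pi0 d i j ^ 2 = (if i = j then (1 - 2 / d : ℝ) else 0) + 1 / (d : ℝ) ^ 2 := by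
      intro j
      unfold Pi0
      split_ifs
      · field_simp; ring
      · field_simp; ring
    simp_rw [this]
    rw [Finset.sum_add_distrib]
    simp
    field_simp
    ring
  unfold nf2
  simp_rw [h1]
  simp
  field_simp

theorem norm_sq_le {d : ℕ} (B : Fin d → Fin d → ℝ) : ‖B‖ ^ 2 ≤ nf2 B := by
  have h0 : 0 ≤ nf2 B := by unfold nf2; positivity
  have h1 : ‖B‖ ≤ Real.sqrt (nf2 B) := by
    refine (pi_norm_le_iff_of_nonneg (Real.sqrt_nonneg _)).2 fun i => ?_
    refine (pi_norm_le_iff_of_nonneg (Real.sqrt_nonneg _)).2 fun j => ?_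
    rw [Real.norm_eq_abs]
    refine Real.abs_le_sqrt ?_
    unfold nf2
    calc B i j ^ 2 ≤ ∑ j, B i j ^ 2 :=
          Finset.single_le_sum (f := fun j => B i j ^ 2) (fun _ _ => sq_nonneg _) (Finset.mem_univ j)
      _ ≤ ∑ i, ∑ j, B i j ^ 2 :=
          Finset.single_le_sum (f := fun i => ∑ j, B i j ^ 2)
            (fun _ _ => Finset.sum_nonneg fun _ _ => sq_nonneg _) (Finset.mem_univ i)
  calc ‖B‖ ^ 2 ≤ Real.sqrt (nf2 B) ^ 2 := by gcongr
    _ = nf2 B := Real.sq_sqrt h0

theorem le_norm_sq {d : ℕ} (B : Fin d → Fin d → ℝ) : nf2 B ≤ (d : ℝ) ^ 2 * ‖B‖ ^ 2 := by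
  unfold nf2
  calc ∑ i, ∑ j, B i j ^ 2 ≤ ∑ _i : Fin d, ∑ _j : Fin d, ‖B‖ ^ 2 := by
        refine Finset.sum_le_sum fun i _ => Finset.sum_le_sum fun j _ => ?_
        have h1 : |B i j| ≤ ‖B‖ := by
          rw [← Real.norm_eq_abs]
          exact (norm_le_pi_norm (B i) j).trans (norm_le_pi_norm B i)
        calc B i j ^ 2 = |B i j| ^ 2 := (sq_abs _).symm
          _ ≤ ‖B‖ ^ 2 := by gcongr
    _ = (d : ℝ) ^ 2 * ‖B‖ ^ 2 := by simp; ring

/-- `ms` as a linear map -/
def msL {d : ℕ} (l : ℝ) (σ : Equiv.Perm (Fin d)) :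
    (Fin d → Fin d → ℝ) →ₗ[ℝ] (Fin d → Fin d → ℝ) where
  toFun := ms l σ
  map_add' A B := by
    funext i j
    simp only [ms, Pi.add_apply]
    ring
  map_smul' x B := by
    funext i j
    simp only [ms, Pi.smul_apply, smul_eq_mul, RingHom.id_apply]
    ring

theorem exists_low {d : ℕ} (μ : Equiv.Perm (Fin d) → ℝ) (l : ℝ) (hI : Inve μ l) :
    ∃ t : ℝ, 0 < t ∧ ∀ σ, 0 < μ σ → ∀ B : Fin d → Fin d → ℝ, t * nf2 B ≤ nf2 (ms l σ B) := by
  have h1 : ∀ σ : Equiv.Perm (Fin d), ∃ t : ℝ, 0 < t ∧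
      (0 < μ σ → ∀ B : Fin d → Fin d → ℝ, t * nf2 B ≤ nf2 (ms l σ B)) := by
    intro σ
    by_cases hσ : 0 < μ σ
    · have hker : (msL l σ).ker = ⊥ := by
        rw [LinearMap.ker_eq_bot']
        exact fun B hB => hI σ hσ B hB
      obtain ⟨K, hK, hA⟩ := (msL l σ).exists_antilipschitzWith hker
      have hK0 : (0 : ℝ) < K := hK
      refine ⟨1 / (((d : ℝ) ^ 2 + 1) * K ^ 2), by positivity, fun _ B => ?_⟩
      have h2 : ‖B‖ ≤ K * ‖ms l σ B‖ := by
        have h3 : dist B 0 ≤ K * dist (msL l σ B) (msL l σ 0) := hA.le_mul_dist B 0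
        rw [map_zero, dist_zero_right, dist_zero_right] at h3
        exact h3
      rw [div_mul_eq_mul_div, one_mul, div_le_iff₀ (by positivity)]
      calc nf2 B ≤ (d : ℝ) ^ 2 * ‖B‖ ^ 2 := le_norm_sq B
        _ ≤ ((d : ℝ) ^ 2 + 1) * (K * ‖ms l σ B‖) ^ 2 := by gcongr; linarith
        _ = ‖ms l σ B‖ ^ 2 * (((d : ℝ) ^ 2 + 1) * K ^ 2) := by ring
        _ ≤ nf2 (ms l σ B) * (((d : ℝ) ^ 2 + 1) * K ^ 2) := by
            gcongr
            exact norm_sq_le _
    · exact ⟨1, one_pos, fun h => absurd h hσ⟩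
  choose t ht0 ht using h1
  have hne : (univ : Finset (Equiv.Perm (Fin d))).Nonempty := univ_nonempty
  refine ⟨univ.inf' hne t, ?_, fun σ hσ B => ?_⟩
  · rw [Finset.lt_inf'_iff]
    exact fun σ _ => ht0 σ
  · have h0 : 0 ≤ nf2 B := by unfold nf2; positivity
    calc univ.inf' hne t * nf2 B ≤ t σ * nf2 B := by
          gcongr
          exact Finset.inf'_le _ (mem_univ σ)
      _ ≤ nf2 (ms l σ B) := ht σ hσ B

theorem mw_low {d : ℕ} {μ : Equiv.Perm (Fin d) → ℝ} {l t : ℝ} (ht0 : 0 < t)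
    (ht : ∀ σ, 0 < μ σ → ∀ B : Fin d → Fin d → ℝ, t * nf2 B ≤ nf2 (ms l σ B)) :
    ∀ (N : ℕ) (w : List (Equiv.Perm (Fin d))), Gd μ N w → ∀ B : Fin d → Fin d → ℝ,
      t ^ N * nf2 B ≤ nf2 (mw l w B)
  | 0, w, hw, B => by
    have : w = [] := List.length_eq_zero_iff.1 hw.1
    subst this
    simp [mw]
  | N + 1, [], hw, B => by simp [Gd] at hw
  | N + 1, σ :: w, hw, B => by
    have hσ : 0 < μ σ := hw.2 σ (by simp)
    have hw' : Gd μ N w := ⟨by simpa using hw.1, fun τ hτ => hw.2 τ (by simp [hτ])⟩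
    calc t ^ (N + 1) * nf2 B = t ^ N * (t * nf2 B) := by ring
      _ ≤ t ^ N * nf2 (ms l σ B) := by gcongr; exact ht σ hσ B
      _ ≤ nf2 (mw l w (ms l σ B)) := mw_low ht0 ht N w hw' _
      _ = nf2 (mw l (σ :: w) B) := rfl

/-- a lower and an upper bound for `log fw` on lists of letters of positive weight -/
theorem exists_log {d : ℕ} (hd : 2 ≤ d) (μ : Equiv.Perm (Fin d) → ℝ) (l : ℝ) (hl0 : 0 ≤ l) (hl1 : l ≤ 1)
    (hI : Inve μ l) (h1 : S_FWB) :
    ∃ κ C0 : ℝ, 0 ≤ κ ∧ 0 ≤ C0 ∧ ∀ (N : ℕ) (w : List (Equiv.Perm (Fin d))), Gd μ N w →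
      0 < fw l w ∧ -(κ * N) ≤ Real.log (fw l w) ∧ Real.log (fw l w) ≤ C0 := by
  obtain ⟨t, ht0, ht⟩ := exists_low μ l hI
  have hd1 : (1 : ℝ) ≤ (d : ℝ) - 1 := by
    have : (2 : ℝ) ≤ d := by exact_mod_cast hd
    linarith
  refine ⟨|Real.log t| / 2, Real.log d / 2, by positivity, ?_, fun N w hw => ?_⟩
  · have : 0 ≤ Real.log d := Real.log_natCast_nonneg d
    positivity
  · have h2 : t ^ N ≤ nf2 (mw l w (Pi0 d)) := by
      have h3 := mw_low ht0 ht N w hw (Pi0 d)
      rw [nf2_Pi0 d hd] at h3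
      calc t ^ N = t ^ N * 1 := (mul_one _).symm
        _ ≤ t ^ N * ((d : ℝ) - 1) := by gcongr
        _ ≤ _ := h3
    have h4 : nf2 (mw l w (Pi0 d)) ≤ d := by
      have h3 := (h1 d (by omega)).1 l hl0 hl1 w (Pi0 d)
      rw [nf2_Pi0 d hd] at h3
      linarith
    have h5 : 0 < nf2 (mw l w (Pi0 d)) := lt_of_lt_of_le (by positivity) h2
    have h6 : Real.log (fw l w) = Real.log (nf2 (mw l w (Pi0 d))) / 2 := by
      unfold fw
      rw [Real.log_sqrt h5.le]
    refine ⟨Real.sqrt_pos.2 h5, ?_, ?_⟩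
    · rw [h6]
      have h7 : Real.log (t ^ N) ≤ Real.log (nf2 (mw l w (Pi0 d))) :=
        Real.log_le_log (by positivity) h2
      rw [Real.log_pow] at h7
      have h8 : -(|Real.log t| * N) ≤ N * Real.log t := by
        have := neg_abs_le (Real.log t)
        have hN : (0 : ℝ) ≤ N := Nat.cast_nonneg N
        nlinarith
      linarith
    · rw [h6]
      have h7 : Real.log (nf2 (mw l w (Pi0 d))) ≤ Real.log d := Real.log_le_log h5 h4
      linarith

theorem Gd_append {d : ℕ} {μ : Equiv.Perm (Fin d) → ℝ} {m n : ℕ} {v w : List (Equiv.Perm (Fin d))}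
    (hv : Gd μ m v) (hw : Gd μ n w) : Gd μ (m + n) (v ++ w) := by
  refine ⟨by simp [hv.1, hw.1], fun σ hσ => ?_⟩
  rcases List.mem_append.1 hσ with h | h
  · exact hv.2 σ h
  · exact hw.2 σ h

theorem s_LYA (h1 : S_FWB) (h2 : S_SQF) : S_LYA := by
  intro d μ l hd hμ hirr hl0 hl1 hI
  obtain ⟨κ, C0, hκ, hC0, hlog⟩ := exists_log hd μ l hl0.le hl1.le hI h1
  have hsub := (h1 d (by omega)).2.1 l hl0.le hl1.le
  set L : List (Equiv.Perm (Fin d)) → ℝ := fun w => Real.log (fw l w) with hL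
  -- the logarithm is subadditive
  have hLs : ∀ (m n : ℕ) (v w : List (Equiv.Perm (Fin d))), Gd μ m v → Gd μ n w →
      L (v ++ w) ≤ L v + L w := by
    intro m n v w hv hw
    have e1 := (hlog m v hv).1
    have e2 := (hlog n w hw).1
    have e3 := (hlog (m + n) (v ++ w) (Gd_append hv hw)).1
    calc L (v ++ w) ≤ Real.log (fw l v * fw l w) := Real.log_le_log e3 (hsub v w)
      _ = L v + L w := Real.log_mul e1.ne' e2.ne'
  set a : ℕ → ℝ := fun N => EW μ N L with ha
  have hasub : Subadditive a := by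
    intro m n
    show EW μ (m + n) L ≤ EW μ m L + EW μ n L
    rw [EW_append]
    have e1 : EW μ m (fun v => EW μ n fun w => L (v ++ w)) ≤
        EW μ m (fun v => 1 * L v + EW μ n L * 1) := by
      refine EW_mono hμ m _ _ fun v hv => ?_
      calc EW μ n (fun w => L (v ++ w)) ≤ EW μ n (fun w => L v * 1 + 1 * L w) := by
            refine EW_mono hμ n _ _ fun w hw => ?_
            have := hLs m n v w hv hw
            linarith
        _ = 1 * L v + EW μ n L * 1 := by
            rw [EW_lin, EW_const hμ]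
            ring
    refine e1.trans (le_of_eq ?_)
    rw [EW_lin, EW_const hμ]
    ring
  have halow : ∀ N : ℕ, -(κ * N) ≤ a N := by
    intro N
    calc -(κ * N) = EW μ N (fun _ => -(κ * N)) := (EW_const hμ _ N).symm
      _ ≤ a N := EW_mono hμ N _ _ fun w hw => (hlog N w hw).2.1
  have hbdd : BddBelow (Set.range fun n : ℕ => a n / n) := by
    refine ⟨-κ, ?_⟩
    rintro _ ⟨n, rfl⟩
    show -κ ≤ a n / n
    rcases Nat.eq_zero_or_pos n with rfl | hn
    · simp [hκ]
    · have hn' : (0 : ℝ) < n := by exact_mod_cast hn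
      rw [le_div_iff₀ hn']
      have := halow n
      linarith
  have hlim := hasub.tendsto_lim hbdd
  have hinf : ∀ n : ℕ, n ≠ 0 → hasub.lim ≤ a n / n := fun n hn => hasub.lim_le_div hbdd hn
  set θ : ℝ := -hasub.lim with hθ
  have hlim' : Tendsto (fun n : ℕ => a n / n) atTop (𝓝 (-θ)) := by
    rw [hθ, neg_neg]; exact hlim
  have hinf' : ∀ n : ℕ, 0 ≤ a n + θ * n := by
    intro n
    rcases Nat.eq_zero_or_pos n with rfl | hn
    · have := halow 0
      simp at this
      simpa using this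
    · have hn' : (0 : ℝ) < n := by exact_mod_cast hn
      have := hinf n hn.ne'
      rw [le_div_iff₀ hn'] at this
      rw [hθ]
      linarith
  -- positivity of the exponent
  have hθ0 : 0 < θ := by
    obtain ⟨C, ρ, hC, hρ0, hρ1, hS⟩ := h2 d μ (by omega) hμ hirr (min l (1 - l))
      (lt_min hl0 (by linarith))
    have hS' := hS l (min_le_left _ _) (by have := min_le_right l (1 - l); linarith)
    have e1 : ∀ N : ℕ, a N ≤ (Real.log C + N * Real.log ρ) / 2 := by
      intro N
      have hy : 0 < C * ρ ^ N := by positivity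
      have e2 : a N ≤ EW μ N (fun w => (1 / (2 * (C * ρ ^ N))) * fw l w ^ 2 +
          ((Real.log (C * ρ ^ N) - 1) / 2) * 1) := by
        refine EW_mono hμ N _ _ fun w hw => ?_
        have e3 := (hlog N w hw).1
        have e4 : Real.log (fw l w ^ 2 / (C * ρ ^ N)) ≤ fw l w ^ 2 / (C * ρ ^ N) - 1 :=
          Real.log_le_sub_one_of_pos (by positivity)
        rw [Real.log_div (by positivity) hy.ne', Real.log_pow] at e4
        have e5 : (1 / (2 * (C * ρ ^ N))) * fw l w ^ 2 = (fw l w ^ 2 / (C * ρ ^ N)) / 2 := by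
          field_simp
        rw [e5]
        show Real.log (fw l w) ≤ _
        push_cast at e4
        linarith
      rw [EW_lin, EW_const hμ] at e2
      have e6 : (1 / (2 * (C * ρ ^ N))) * EW μ N (fun w => fw l w ^ 2) ≤ 1 / 2 := by
        calc (1 / (2 * (C * ρ ^ N))) * EW μ N (fun w => fw l w ^ 2)
            ≤ (1 / (2 * (C * ρ ^ N))) * (C * ρ ^ N) := by gcongr; exact hS' N
          _ = 1 / 2 := by field_simp
      rw [Real.log_mul hC.ne' (by positivity), Real.log_pow] at e2
      linarith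
    by_contra hneg
    push Not at hneg
    have hρl : Real.log ρ < 0 := Real.log_neg hρ0 hρ1
    obtain ⟨N, hN⟩ := exists_nat_gt (Real.log C / -Real.log ρ)
    have e7 : Real.log C < N * -Real.log ρ := by
      rwa [div_lt_iff₀ (by linarith)] at hN
    have e8 := e1 N
    have e9 := hinf' N
    have e10 : θ * N ≤ 0 := mul_nonpos_of_nonpos_of_nonneg hneg (Nat.cast_nonneg N)
    linarith
  -- the upper tail
  have hup : ∀ ε : ℝ, 0 < ε →
      Tendsto (fun N : ℕ => EW μ N (fun w => if Real.exp (-(θ - ε) * N) < fw l w then 1 else 0))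
        atTop (𝓝 0) := by
    intro ε hε
    obtain ⟨m, hm1, hm2⟩ : ∃ m : ℕ, a m / m < -θ + ε / 4 ∧ 1 ≤ m := by
      have e1 : ∀ᶠ m : ℕ in atTop, a m / m < -θ + ε / 4 :=
        hlim'.eventually (gt_mem_nhds (by linarith))
      exact (e1.and (eventually_ge_atTop 1)).exists
    have hm' : (0 : ℝ) < m := by exact_mod_cast hm2
    set K : ℝ := κ * m + C0 + 1 with hK
    have hK0 : 0 < K := by positivity
    have hLK : ∀ w, Gd μ m w → |L w| ≤ K := by
      intro w hw
      have e1 := (hlog m w hw).2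
      rw [abs_le]
      constructor
      · have : -(κ * m) ≤ L w := e1.1
        linarith
      · have : L w ≤ C0 := e1.2
        have e2 : 0 ≤ κ * m := by positivity
        linarith
    set η : ℝ := min (1 / K) (ε * m / (4 * K ^ 2)) with hη
    have hη0 : 0 < η := lt_min (by positivity) (by positivity)
    have hη1 : η * K ≤ 1 := by
      calc η * K ≤ (1 / K) * K := by gcongr; exact min_le_left _ _
        _ = 1 := by field_simp
    have hη2 : η * K ^ 2 ≤ ε * m / 4 := by
      calc η * K ^ 2 ≤ (ε * m / (4 * K ^ 2)) * K ^ 2 := by gcongr; exact min_le_right _ _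
        _ = ε * m / 4 := by field_simp
    set b : ℕ → ℝ := fun N => EW μ N (fun w => Real.exp (η * L w)) with hb
    have hb0 : ∀ N, 0 < b N := by
      intro N
      have e1 : EW μ N (fun _ => Real.exp (η * -(κ * N))) ≤ b N := by
        refine EW_mono hμ N _ _ fun w hw => ?_
        have := (hlog N w hw).2.1
        refine Real.exp_le_exp.2 ?_
        exact mul_le_mul_of_nonneg_left this hη0.le
      rw [EW_const hμ] at e1
      exact lt_of_lt_of_le (Real.exp_pos _) e1
    have hbm : ∀ m n : ℕ, b (m + n) ≤ b m * b n := by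
      intro m n
      show EW μ (m + n) _ ≤ _
      rw [EW_append]
      have e1 : EW μ m (fun v => EW μ n fun w => Real.exp (η * L (v ++ w))) ≤
          EW μ m (fun v => b n * Real.exp (η * L v) + 0 * Real.exp (η * L v)) := by
        refine EW_mono hμ m _ _ fun v hv => ?_
        calc EW μ n (fun w => Real.exp (η * L (v ++ w)))
            ≤ EW μ n (fun w => Real.exp (η * L v) * Real.exp (η * L w) +
              0 * Real.exp (η * L w)) := by
              refine EW_mono hμ n _ _ fun w hw => ?_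
              rw [zero_mul, add_zero, ← Real.exp_add]
              refine Real.exp_le_exp.2 ?_
              have := hLs m n v w hv hw
              nlinarith
          _ = b n * Real.exp (η * L v) + 0 * Real.exp (η * L v) := by
              rw [EW_lin]
              show Real.exp (η * L v) * b n + 0 * b n = _
              ring
      refine e1.trans (le_of_eq ?_)
      rw [EW_lin]
      show b n * b m + 0 * b m = _
      ring
    have husub : Subadditive (fun N => Real.log (b N)) := by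
      intro m n
      calc Real.log (b (m + n)) ≤ Real.log (b m * b n) := Real.log_le_log (hb0 _) (hbm m n)
        _ = Real.log (b m) + Real.log (b n) := Real.log_mul (hb0 m).ne' (hb0 n).ne'
    have hum : Real.log (b m) / m < η * (-θ + ε / 2) := by
      rw [div_lt_iff₀ hm']
      have e1 : b m ≤ EW μ m (fun w => η * L w + (1 + η ^ 2 * K ^ 2) * 1) := by
        refine EW_mono hμ m _ _ fun w hw => ?_
        have e2 := hLK w hw
        have e3 : |η * L w| ≤ 1 := by
          rw [abs_mul, abs_of_pos hη0]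
          exact (mul_le_mul_of_nonneg_left e2 hη0.le).trans hη1
        have e4 := Real.abs_exp_sub_one_sub_id_le e3
        have e5 := (abs_le.1 e4).2
        have e6 : (η * L w) ^ 2 ≤ η ^ 2 * K ^ 2 := by
          rw [mul_pow]
          refine mul_le_mul_of_nonneg_left ?_ (by positivity)
          calc L w ^ 2 = |L w| ^ 2 := (sq_abs _).symm
            _ ≤ K ^ 2 := by gcongr
        linarith
      rw [EW_lin, EW_const hμ] at e1
      have e7 : Real.log (b m) ≤ b m - 1 := Real.log_le_sub_one_of_pos (hb0 m)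
      have e8 : a m < (-θ + ε / 4) * m := by rwa [div_lt_iff₀ hm'] at hm1
      have e9 : η * a m < η * ((-θ + ε / 4) * m) := mul_lt_mul_of_pos_left e8 hη0
      have e10 : η * (η * K ^ 2) ≤ η * (ε * m / 4) := mul_le_mul_of_nonneg_left hη2 hη0.le
      have e11 : b m ≤ η * a m + (1 + η ^ 2 * K ^ 2) * 1 := e1
      have e12 : η ^ 2 * K ^ 2 = η * (η * K ^ 2) := by ring
      have e13 : η * (-θ + ε / 2) * m = η * ((-θ + ε / 4) * m) + η * (ε * m / 4) := by ring
      rw [e13]
      linarith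
    have hev := husub.eventually_div_lt_of_div_lt (by omega) hum
    have hz : Tendsto (fun N : ℕ => Real.exp (-((η * ε / 2) * N))) atTop (𝓝 0) := by
      refine Real.tendsto_exp_neg_atTop_nhds_zero.comp ?_
      exact tendsto_natCast_atTop_atTop.const_mul_atTop (by positivity)
    refine squeeze_zero' (Eventually.of_forall fun N => EW_nonneg hμ N _ fun w => ?_) ?_ hz
    · split_ifs <;> norm_num
    · filter_upwards [hev, eventually_ge_atTop 1] with N hN1 hN2
      have hN' : (0 : ℝ) < N := by exact_mod_cast hN2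
      rw [div_lt_iff₀ hN'] at hN1
      have e1 : b N ≤ Real.exp (η * (-θ + ε / 2) * N) := by
        rw [← Real.log_le_iff_le_exp (hb0 N)]
        exact hN1.le
      have e2 : EW μ N (fun w => if Real.exp (-(θ - ε) * N) < fw l w then 1 else 0) ≤
          EW μ N (fun w => Real.exp (η * ((θ - ε) * N)) * Real.exp (η * L w) +
            0 * Real.exp (η * L w)) := by
        refine EW_mono hμ N _ _ fun w hw => ?_
        rw [zero_mul, add_zero, ← Real.exp_add]
        split_ifs with hif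
        · refine Real.one_le_exp ?_
          have e3 : -(θ - ε) * N < L w := by
            rw [← Real.log_exp (-(θ - ε) * N)]
            exact Real.log_lt_log (Real.exp_pos _) hif
          have e4 : 0 ≤ η * ((θ - ε) * N + L w) := by
            refine mul_nonneg hη0.le ?_
            linarith
          linarith
        · exact (Real.exp_pos _).le
      rw [EW_lin] at e2
      calc EW μ N (fun w => if Real.exp (-(θ - ε) * N) < fw l w then 1 else 0)
          ≤ Real.exp (η * ((θ - ε) * N)) * b N + 0 * b N := e2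
        _ = Real.exp (η * ((θ - ε) * N)) * b N := by ring
        _ ≤ Real.exp (η * ((θ - ε) * N)) * Real.exp (η * (-θ + ε / 2) * N) := by gcongr
        _ = Real.exp (-((η * ε / 2) * N)) := by
            rw [← Real.exp_add]
            congr 1
            ring
  refine ⟨θ, hθ0, hlim', fun ε hε => ⟨hup ε hε, ?_⟩⟩
  -- the lower tail
  rw [Metric.tendsto_atTop]
  intro δ hδ
  set ε' : ℝ := δ * ε / 4 with hε'
  have hε'0 : 0 < ε' := by positivity
  set D : ℝ := C0 + θ with hD
  have hD0 : 0 < D := by positivity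
  have e1 : ∀ᶠ N : ℕ in atTop,
      EW μ N (fun w => if Real.exp (-(θ - ε') * N) < fw l w then (1 : ℝ) else 0) < δ * ε / (4 * D) :=
    (hup ε' hε'0).eventually (gt_mem_nhds (by positivity))
  obtain ⟨N0, hN0⟩ := eventually_atTop.1 (e1.and (eventually_ge_atTop 1))
  refine ⟨N0, fun N hN => ?_⟩
  obtain ⟨e2, e3⟩ := hN0 N hN
  have hN' : (1 : ℝ) ≤ N := by exact_mod_cast e3
  have hN0' : (0 : ℝ) < N := by linarith
  set p : ℝ := EW μ N (fun w => if fw l w < Real.exp (-(θ + ε) * N) then (1 : ℝ) else 0) with hp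
  set r : ℝ := EW μ N (fun w => if Real.exp (-(θ - ε') * N) < fw l w then (1 : ℝ) else 0) with hr
  have hp0 : 0 ≤ p := EW_nonneg hμ N _ fun w => by split_ifs <;> norm_num
  have e4 : EW μ N (fun w => (ε * N) * (if fw l w < Real.exp (-(θ + ε) * N) then (1 : ℝ) else 0) +
      1 * L w) ≤ EW μ N (fun w => (D * N) *
        (if Real.exp (-(θ - ε') * N) < fw l w then (1 : ℝ) else 0) + (ε' * N - θ * N) * 1) := by
    refine EW_mono hμ N _ _ fun w hw => ?_
    obtain ⟨f1, f2, f3⟩ := hlog N w hw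
    have g1 : fw l w < Real.exp (-(θ + ε) * N) ↔ L w < -(θ + ε) * N := by
      show _ ↔ Real.log (fw l w) < _
      rw [Real.log_lt_iff_lt_exp f1]
    have g2 : Real.exp (-(θ - ε') * N) < fw l w ↔ -(θ - ε') * N < L w := by
      show _ ↔ _ < Real.log (fw l w)
      rw [Real.lt_log_iff_exp_lt f1]
    simp only [g1, g2]
    have f4 : L w ≤ C0 := f3
    have f5 : C0 ≤ C0 * N := by nlinarith
    split_ifs with i1 i2 i2
    · nlinarith [mul_pos hε hN0', mul_pos hε'0 hN0', mul_pos hθ0 hN0', mul_pos hD0 hN0']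
    · nlinarith [mul_pos hε hN0', mul_pos hε'0 hN0', mul_pos hθ0 hN0', mul_pos hD0 hN0']
    · rw [hD]
      nlinarith [mul_pos hε hN0', mul_pos hε'0 hN0', mul_pos hθ0 hN0', mul_pos hD0 hN0']
    · push Not at i1 i2
      nlinarith [mul_pos hε hN0', mul_pos hε'0 hN0', mul_pos hθ0 hN0', mul_pos hD0 hN0']
  rw [EW_lin, EW_lin, EW_const hμ] at e4
  have e5 : (ε * N) * p + 1 * a N ≤ (D * N) * r + (ε' * N - θ * N) * 1 := e4
  have e6 := hinf' N
  have e7 : (ε * p) * N ≤ (D * r + ε') * N := by nlinarith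
  have e8 : ε * p ≤ D * r + ε' := le_of_mul_le_mul_right e7 hN0'
  have e9 : D * r < D * (δ * ε / (4 * D)) := mul_lt_mul_of_pos_left e2 hD0
  have e10 : D * (δ * ε / (4 * D)) = δ * ε / 4 := by field_simp
  have e11 : ε * p < ε * δ := by
    have : 0 < δ * ε := by positivity
    linarith
  have e12 : p < δ := lt_of_mul_lt_mul_left e11 hε.le
  rw [Real.dist_eq, sub_zero, abs_of_nonneg hp0]
  exact e12

end Pool.Agent.L7h15.UC
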